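import Mathlib

namespace Pool.Agent.Results.MP_ba12ad_co.Counterexample

/-- No loops, no directed 2-cycles and no directed triangles. -/
def ShortFree {n : ℕ} (A : Fin n → Fin n → Prop) : Prop :=
  (∀ u, ¬ A u u) ∧ (∀ u v, A u v → ¬ A v u) ∧ ∀ u v w, A u v → A v w → ¬ A w u

/-- Adding any missing arc creates a directed cycle of length at most 3. -/
def Maximal' {n : ℕ} (A : Fin n → Fin n → Prop) : Prop :=
  ∀ u v, u ≠ v → ¬ A u v → ¬ ShortFree fun x y => A x y ∨ (x = u ∧ y = v)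

/-- A homogeneous set. -/
def Homogeneous {n : ℕ} (A : Fin n → Fin n → Prop) (X : Finset (Fin n)) : Prop :=
  2 ≤ X.card ∧ X.card < n ∧ ∀ w, w ∉ X →
    (∀ x ∈ X, A w x) ∨ (∀ x ∈ X, A x w) ∨ ∀ x ∈ X, ¬ A w x ∧ ¬ A x w

def out : List (List ℕ) := [[1, 2, 3], [3, 4, 7], [1, 3, 4, 6], [4, 5, 7], [5, 7, 10], [6, 8, 10],
  [1, 9, 10], [5, 8, 10], [0, 2, 9], [0, 1, 3], [0, 8, 9]]

def adj (u v : Fin 11) : Bool := (out.getD u []).contains v.val

theorem hom : ∀ f : Fin 11 → Bool, ∀ a b c : Fin 11, a ≠ b → f a = true → f b = true → f c = false →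
    (∀ w x y, f w = false → f x = true → f y = true → adj w x = adj w y ∧ adj x w = adj y w) →
    False := by
  have key : ∀ x0 x1 x2 x3 x4 x5 x6 x7 x8 x9 x10 : Bool,
      (∀ w x y : Fin 11, ![x0, x1, x2, x3, x4, x5, x6, x7, x8, x9, x10] w = false →
        ![x0, x1, x2, x3, x4, x5, x6, x7, x8, x9, x10] x = true →
        ![x0, x1, x2, x3, x4, x5, x6, x7, x8, x9, x10] y = true →
          adj w x = adj w y ∧ adj x w = adj y w) →
      ∀ a b c : Fin 11, a ≠ b → ![x0, x1, x2, x3, x4, x5, x6, x7, x8, x9, x10] a = true →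
        ![x0, x1, x2, x3, x4, x5, x6, x7, x8, x9, x10] b = true →
        ![x0, x1, x2, x3, x4, x5, x6, x7, x8, x9, x10] c = true := by
    decide +kernel
  intro f a b c hab ha hb hc h
  have e : f = ![f 0, f 1, f 2, f 3, f 4, f 5, f 6, f 7, f 8, f 9, f 10] := by
    funext i
    fin_cases i <;> rfl
  have := key (f 0) (f 1) (f 2) (f 3) (f 4) (f 5) (f 6) (f 7) (f 8) (f 9) (f 10)
  rw [← e] at this
  rw [this h a b c hab ha hb] at hc
  exact absurd hc (by simp)

theorem deg : ∀ u : Fin 11, 4 * 11 < 15 * (Finset.univ.filter fun v => adj u v = true).card := by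
  decide +kernel

theorem result : ∃ (n : ℕ) (A : Fin n → Fin n → Prop), ShortFree A ∧ Maximal' A ∧
    (∀ X, ¬ Homogeneous A X) ∧ (∀ u, 4 * n < 15 * {v | A u v}.ncard) ∧ ∀ k, n ≠ 3 * k + 1 := by
  refine ⟨11, fun u v => adj u v = true, ?_, ?_, ?_, ?_, fun k => by omega⟩
  · unfold ShortFree
    decide +kernel
  · have h : ∀ u v : Fin 11, u ≠ v → ¬ adj u v = true →
        adj v u = true ∨ ∃ w, adj v w = true ∧ adj w u = true := by decide +kernel
    rintro u v huv h1 ⟨-, h2, h3⟩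
    rcases h u v huv h1 with h4 | ⟨w, h4, h5⟩
    · exact h2 u v (Or.inr ⟨rfl, rfl⟩) (Or.inl h4)
    · exact h3 u v w (Or.inr ⟨rfl, rfl⟩) (Or.inl h4) (Or.inl h5)
  · rintro X ⟨h1, h2, h3⟩
    obtain ⟨a, ha, b, hb, hab⟩ := Finset.one_lt_card.1 h1
    obtain ⟨c, -, hc⟩ := Finset.exists_mem_notMem_of_card_lt_card
      (s := X) (t := Finset.univ) (by simpa using h2)
    have asym : ∀ u v : Fin 11, adj u v = true → adj v u = false := by decide +kernel
    refine hom (fun i => decide (i ∈ X)) a b c hab (by simpa using ha) (by simpa using hb)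
      (by simpa using hc) fun w x y hw hx hy => ?_
    simp only [decide_eq_false_iff_not, decide_eq_true_eq] at hw hx hy
    rcases h3 w hw with h | h | h
    · simp [h x hx, h y hy, asym _ _ (h x hx), asym _ _ (h y hy)]
    · simp [h x hx, h y hy, asym _ _ (h x hx), asym _ _ (h y hy)]
    · exact ⟨(Bool.eq_false_iff.2 (h x hx).1).trans (Bool.eq_false_iff.2 (h y hy).1).symm,
        (Bool.eq_false_iff.2 (h x hx).2).trans (Bool.eq_false_iff.2 (h y hy).2).symm⟩
  · intro u
    have e : {v | adj u v = true} = ↑(Finset.univ.filter fun v => adj u v = true) := by simp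
    rw [e, Set.ncard_coe_finset]
    exact deg u

end Pool.Agent.Results.MP_ba12ad_co.Counterexample
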